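import Pool.Agent.Y852.ES.Tay

/-!
Project ES: the function `H` at the maximum point.
-/

set_option autoImplicit false

open Complex MeasureTheory Metric Set Filter Topology ComplexConjugate

namespace Pool.Agent.Y852.ES

open Pool.Agent.Y245.SC

theorem lim0 {a K s0 : ℝ} (hs : 0 < s0) (h : ∀ s, 0 < s → s ≤ s0 → a ≤ K * s) : a ≤ 0 := by
  by_contra ha
  push Not at ha
  have hK : 0 < |K| + 1 := by positivity
  have h1 : 0 < min s0 (a / (2 * (|K| + 1))) := lt_min hs (by positivity)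
  have h2 := h _ h1 (min_le_left _ _)
  have h3 : K * min s0 (a / (2 * (|K| + 1))) ≤ (|K| + 1) * (a / (2 * (|K| + 1))) := by
    have h4 : K ≤ |K| + 1 := (le_abs_self K).trans (by linarith)
    exact mul_le_mul h4 (min_le_right _ _) h1.le hK.le
  have h5 : (|K| + 1) * (a / (2 * (|K| + 1))) = a / 2 := by field_simp
  linarith

theorem norm_sI (s : ℝ) : ‖((s : ℂ) * I)‖ = |s| := by
  rw [norm_mul, Complex.norm_I, mul_one, Complex.norm_real, Real.norm_eq_abs]

section

variable {H : ℂ → ℂ} {δ : ℝ}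

theorem cb_sub {z : ℂ} (hz : ‖z‖ < δ / 2) : closedBall z (δ / 2) ⊆ ball (0:ℂ) δ := by
  intro w hw
  rw [mem_closedBall_iff_norm] at hw
  rw [mem_ball_zero_iff]
  calc ‖w‖ = ‖(w - z) + z‖ := by rw [sub_add_cancel]
    _ ≤ ‖w - z‖ + ‖z‖ := norm_add_le _ _
    _ < δ := by linarith

theorem derivH (hδ : 0 < δ) (hd : DifferentiableOn ℂ H (ball 0 δ)) (h1 : ∀ τ ∈ ball (0:ℂ) δ, ‖H τ‖ ≤ 1)
    {z : ℂ} (hz : ‖z‖ < δ / 2) : ‖deriv H z‖ ≤ 2 / δ := by
  have hsub := cb_sub hz
  have hR : 0 < δ / 2 := by linarith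
  have hdc : DiffContOnCl ℂ H (ball z (δ / 2)) := by
    refine ⟨hd.mono (ball_subset_closedBall.trans hsub), ?_⟩
    rw [closure_ball z hR.ne']
    exact hd.continuousOn.mono hsub
  have h := norm_deriv_le_of_forall_mem_sphere_norm_le hR hdc
    (fun w hw => h1 w (hsub (sphere_subset_closedBall hw)))
  calc _ ≤ 1 / (δ / 2) := h
    _ = _ := by field_simp

/-- first and second order at a point `z` -/
theorem H12 (hδ : 0 < δ) (hd : DifferentiableOn ℂ H (ball 0 δ)) (h1 : ∀ τ ∈ ball (0:ℂ) δ, ‖H τ‖ ≤ 1)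
    {z : ℂ} (hz : ‖z‖ < δ / 2) {τ : ℂ} (hτ : ‖τ‖ ≤ δ / 4) :
    ‖H (z + τ) - H z‖ ≤ 4 * ‖τ‖ / δ ∧ ‖H (z + τ) - H z - τ * deriv H z‖ ≤ 8 * ‖τ‖ ^ 2 / δ ^ 2 := by
  have hsub := cb_sub hz
  have hR : 0 < δ / 2 := by linarith
  constructor
  · have h := tay hR (hd.mono hsub) (fun w hw => h1 w (hsub hw)) (τ := τ) (by linarith) 1
    simp only [Finset.sum_range_one, Nat.factorial_zero, Nat.cast_one, inv_one, one_mul, pow_zero,
      iteratedDeriv_zero, pow_one] at h
    refine h.trans (le_of_eq ?_)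
    field_simp
    ring
  · have h := tay hR (hd.mono hsub) (fun w hw => h1 w (hsub hw)) (τ := τ) (by linarith) 2
    simp only [Finset.sum_range_succ, Finset.sum_range_zero, zero_add, Nat.factorial_zero, Nat.cast_one,
      inv_one, one_mul, pow_zero, iteratedDeriv_zero, pow_one, Nat.factorial_one, iteratedDeriv_one] at h
    rw [sub_sub]
    refine h.trans (le_of_eq ?_)
    field_simp
    ring

/-- the maximum point: first derivative -/
theorem H0im (hδ : 0 < δ) (hd : DifferentiableOn ℂ H (ball 0 δ)) (h1 : ∀ τ ∈ ball (0:ℂ) δ, ‖H τ‖ ≤ 1)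
    (h0 : H 0 = 0) (hg : ∀ s : ℝ, |s| < δ → (H (s * I)).re ≤ 0) : (deriv H 0).im = 0 := by
  have key : ∀ s : ℝ, |s| ≤ δ / 4 → -(s * (deriv H 0).im) ≤ 8 / δ ^ 2 * s ^ 2 := by
    intro s hs
    have h2 := (H12 hδ hd h1 (z := 0) (by rw [norm_zero]; linarith) (τ := s * I)
      (by rw [norm_sI]; exact hs)).2
    rw [zero_add, h0, sub_zero, norm_sI, sq_abs] at h2
    have h3 := (Complex.abs_re_le_norm _).trans h2
    rw [Complex.sub_re] at h3
    have h4 : ((s : ℂ) * I * deriv H 0).re = -(s * (deriv H 0).im) := by simp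
    rw [h4] at h3
    have h5 := hg s (by linarith)
    have h6 := (abs_le.1 h3).1
    have : 8 * s ^ 2 / δ ^ 2 = 8 / δ ^ 2 * s ^ 2 := by ring
    rw [this] at h6
    linarith
  have e1 : -(deriv H 0).im ≤ 0 := by
    refine lim0 (K := 8 / δ ^ 2) (s0 := δ / 4) (by linarith) fun s hs hs1 => ?_
    have h2 := key s (by rw [abs_of_pos hs]; exact hs1)
    have h3 : s * (-(deriv H 0).im) ≤ s * (8 / δ ^ 2 * s) := by linarith [h2]
    exact le_of_mul_le_mul_left h3 hs
  have e2 : (deriv H 0).im ≤ 0 := by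
    refine lim0 (K := 8 / δ ^ 2) (s0 := δ / 4) (by linarith) fun s hs hs1 => ?_
    have h2 := key (-s) (by rw [abs_neg, abs_of_pos hs]; exact hs1)
    have h3 : s * ((deriv H 0).im) ≤ s * (8 / δ ^ 2 * s) := by linarith [h2]
    exact le_of_mul_le_mul_left h3 hs
  linarith

/-- the imaginary part of the derivative -/
theorem Him (hδ : 0 < δ) (hd : DifferentiableOn ℂ H (ball 0 δ)) (h1 : ∀ τ ∈ ball (0:ℂ) δ, ‖H τ‖ ≤ 1)
    (h0 : H 0 = 0) (hg : ∀ s : ℝ, |s| < δ → (H (s * I)).re ≤ 0) {η : ℝ} (hη : |η| ≤ δ / 8) :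
    |(deriv H (η * I)).im| ≤ 16 * |η| / δ ^ 2 := by
  have hR : 0 < δ / 4 := by linarith
  have hdd : DifferentiableOn ℂ (deriv H) (closedBall 0 (δ / 4)) :=
    (hd.deriv isOpen_ball).mono (closedBall_subset_ball (by linarith))
  have hb : ∀ z ∈ closedBall (0:ℂ) (δ / 4), ‖deriv H z‖ ≤ 2 / δ := by
    intro z hz
    rw [mem_closedBall_zero_iff] at hz
    exact derivH hδ hd h1 (by linarith)
  have h := tay hR hdd hb (τ := η * I) (by rw [norm_sI]; linarith) 1
  simp only [Finset.sum_range_one, Nat.factorial_zero, Nat.cast_one, inv_one, one_mul, pow_zero,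
    iteratedDeriv_zero, pow_one, zero_add] at h
  rw [norm_sI] at h
  have h2 := (Complex.abs_im_le_norm _).trans h
  rw [Complex.sub_im, H0im hδ hd h1 h0 hg, sub_zero] at h2
  refine h2.trans (le_of_eq ?_)
  field_simp
  ring

/-- third order at the maximum point -/
theorem H3 (hδ : 0 < δ) (hd : DifferentiableOn ℂ H (ball 0 δ)) (h1 : ∀ τ ∈ ball (0:ℂ) δ, ‖H τ‖ ≤ 1)
    (h0 : H 0 = 0) (hg : ∀ s : ℝ, |s| < δ → (H (s * I)).re ≤ 0) :
    ∃ B : ℝ, 0 ≤ B ∧ B ≤ 8 / δ ^ 2 ∧ ∀ s : ℝ, |s| ≤ δ / 4 →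
      |(H (s * I)).re + B / 2 * s ^ 2| ≤ 16 * |s| ^ 3 / δ ^ 3 := by
  have hR : 0 < δ / 2 := by linarith
  have hsub : closedBall (0:ℂ) (δ / 2) ⊆ ball (0:ℂ) δ := cb_sub (by rw [norm_zero]; linarith)
  set B := (iteratedDeriv 2 H 0).re with hB
  have key : ∀ s : ℝ, |s| ≤ δ / 4 → |(H (s * I)).re + B / 2 * s ^ 2| ≤ 16 * |s| ^ 3 / δ ^ 3 := by
    intro s hs
    have h := tay hR (hd.mono hsub) (fun w hw => h1 w (hsub hw)) (τ := s * I)
      (by rw [norm_sI]; linarith) 3
    simp only [Finset.sum_range_succ, Finset.sum_range_zero, zero_add, Nat.factorial_zero, Nat.cast_one,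
      inv_one, one_mul, pow_zero, iteratedDeriv_zero, pow_one, Nat.factorial_one, iteratedDeriv_one, h0,
      norm_sI] at h
    have h2 := (Complex.abs_re_le_norm _).trans h
    have e : (H (s * I) - (s * I * deriv H 0 +
        ((Nat.factorial 2 : ℕ) : ℂ)⁻¹ * ((s * I) ^ 2 * iteratedDeriv 2 H 0))).re =
        (H (s * I)).re + B / 2 * s ^ 2 := by
      have h3 : (((Nat.factorial 2 : ℕ) : ℂ)⁻¹ * ((s * I) ^ 2 * iteratedDeriv 2 H 0)) =
          (((-(s ^ 2) / 2 : ℝ) : ℂ)) * iteratedDeriv 2 H 0 := by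
        rw [mul_pow, I_sq]
        simp only [Nat.factorial]
        push_cast
        ring
      rw [h3, Complex.sub_re, Complex.add_re, Complex.re_ofReal_mul]
      have h4 : ((s : ℂ) * I * deriv H 0).re = -(s * (deriv H 0).im) := by simp
      rw [h4, H0im hδ hd h1 h0 hg]
      ring
    rw [e] at h2
    refine h2.trans (le_of_eq ?_)
    field_simp
    ring
  refine ⟨B, ?_, ?_, key⟩
  · have : -B ≤ 0 := by
      refine lim0 (K := 32 / δ ^ 3) (s0 := δ / 4) (by linarith) fun s hs hs1 => ?_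
      have h2 := key s (by rw [abs_of_pos hs]; exact hs1)
      have h3 := hg s (by rw [abs_of_pos hs]; linarith)
      rw [abs_of_pos hs] at h2
      have h4 := (abs_le.1 h2).1
      have h5 : s ^ 2 * (-B) ≤ s ^ 2 * (32 / δ ^ 3 * s) := by
        have : s ^ 2 * (32 / δ ^ 3 * s) = 2 * (16 * s ^ 3 / δ ^ 3) := by ring
        rw [this]
        linarith
      exact le_of_mul_le_mul_left h5 (by positivity)
    linarith
  · have hdc : DiffContOnCl ℂ H (ball 0 (δ / 2)) := by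
      refine ⟨hd.mono (ball_subset_closedBall.trans hsub), ?_⟩
      rw [closure_ball (0:ℂ) hR.ne']
      exact hd.continuousOn.mono hsub
    have h := norm_iteratedDeriv_le_of_forall_mem_sphere_norm_le 2 hR hdc
      (fun w hw => h1 w (hsub (sphere_subset_closedBall hw)))
    have h2 := ((le_abs_self _).trans (Complex.abs_re_le_norm _)).trans h
    refine h2.trans (le_of_eq ?_)
    simp only [Nat.factorial]
    push_cast
    field_simp
    ring

end

end Pool.Agent.Y852.ES
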