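import Mathlib

/-!
Project ES: the phase near zero.
-/

set_option autoImplicit false

open Complex

namespace Pool.Agent.Y852.ES

/-- the main inequality for `|θ| ≤ 1/N`, `N = n ^ 16` -/
theorem part1 {n N θ : ℝ} {Ed v d : ℂ} (hn : 1 ≤ n) (hn7 : 8 ≤ n ^ 7) (hN : N = n ^ 16)
    (hθ : N * |θ| ≤ 1) (hE : ‖Ed - I * θ‖ ≤ 2 * θ ^ 2) (hv : ‖v + I * θ * d‖ ≤ 8 * n ^ 18 * θ ^ 2)
    (hd : ‖d‖ ≤ 2 * n ^ 9) :
    ‖Ed + (exp (-(I * N * θ) + v) - 1) / (N + d) -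
      (exp (-(I * N * θ)) - 1 + I * N * θ) / N‖ ≤ 50 * n ^ 9 * θ ^ 2 := by
  have hn0 : 0 < n := by linarith
  have hN0 : 0 < N := by rw [hN]; positivity
  have hNc : (N : ℂ) ≠ 0 := by exact_mod_cast hN0.ne'
  -- sizes
  have h16 : n ^ 16 = n ^ 9 * n ^ 7 := by ring
  have hd2 : ‖d‖ ≤ N / 4 := by
    rw [hN, h16]
    have : 0 ≤ n ^ 9 := by positivity
    nlinarith
  have hlow : N / 2 ≤ ‖(N : ℂ) + d‖ := by
    have h1 : ‖(N : ℂ)‖ = N := by rw [Complex.norm_real, Real.norm_of_nonneg hN0.le]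
    have h2 := norm_sub_norm_le (N : ℂ) (-d)
    rw [norm_neg, sub_neg_eq_add, h1] at h2
    linarith
  have hNd0 : (N : ℂ) + d ≠ 0 := by
    intro h
    rw [h, norm_zero] at hlow
    linarith
  set a := |θ| with ha
  have ha0 : 0 ≤ a := abs_nonneg _
  have hθa : θ ^ 2 = a ^ 2 := (sq_abs θ).symm
  have hθn : ‖(θ : ℂ)‖ = a := by rw [Complex.norm_real, Real.norm_eq_abs]
  rw [hθa] at hE hv ⊢
  -- size of v
  have h9a : 8 * (n ^ 9 * a) ≤ 1 := by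
    have h1 : N * a = n ^ 7 * (n ^ 9 * a) := by rw [hN]; ring
    have h2 : 0 ≤ n ^ 9 * a := by positivity
    nlinarith
  have hvn : ‖v‖ ≤ 3 * n ^ 9 * a := by
    have h1 : ‖v‖ ≤ ‖v + I * θ * d‖ + ‖I * θ * d‖ := by
      calc ‖v‖ = ‖(v + I * θ * d) - I * θ * d‖ := by rw [add_sub_cancel_right]
        _ ≤ _ := norm_sub_le _ _
    have h2 : ‖I * θ * d‖ = a * ‖d‖ := by
      rw [norm_mul, norm_mul, Complex.norm_I, one_mul, hθn]
    have h3 : a * ‖d‖ ≤ a * (2 * n ^ 9) := mul_le_mul_of_nonneg_left hd ha0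
    have h4 : 8 * n ^ 18 * a ^ 2 = (8 * (n ^ 9 * a)) * (n ^ 9 * a) := by ring
    have h5 : 0 ≤ n ^ 9 * a := by positivity
    nlinarith
  have hv1 : ‖v‖ ≤ 1 := by nlinarith
  set w' : ℂ := -(I * N * θ) with hw'
  have hw'n : ‖w'‖ = N * a := by
    rw [hw', norm_neg, norm_mul, norm_mul, Complex.norm_I, one_mul, hθn, Complex.norm_real,
      Real.norm_of_nonneg hN0.le]
  have hexp1 : ‖exp w'‖ = 1 := by
    rw [hw', Complex.norm_exp]; simp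
  have hw'1 : ‖exp w' - 1‖ ≤ 2 * (N * a) := by
    rw [← hw'n]
    exact Complex.norm_exp_sub_one_le (by rw [hw'n]; exact hθ)
  have hw'2 : ‖exp w' - 1 - w'‖ ≤ (N * a) ^ 2 := by
    rw [← hw'n]
    exact Complex.norm_exp_sub_one_sub_id_le (by rw [hw'n]; exact hθ)
  have hv2 : ‖exp v - 1 - v‖ ≤ ‖v‖ ^ 2 := Complex.norm_exp_sub_one_sub_id_le hv1
  -- the identity
  have key : Ed + (exp (w' + v) - 1) / (N + d) - (exp w' - 1 + I * N * θ) / N =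
      (Ed - I * θ) + ((exp w' - 1) * v + exp w' * (exp v - 1 - v)) / (N + d) +
        (exp w' - 1 - w') * (-d) / (N * (N + d)) + (v + I * θ * d) / (N + d) := by
    rw [Complex.exp_add]
    field_simp
    rw [hw']
    ring
  rw [key]
  have b1 : ‖((exp w' - 1) * v + exp w' * (exp v - 1 - v)) / (N + d)‖ ≤ 30 * n ^ 9 * a ^ 2 := by
    rw [norm_div, div_le_iff₀ (by linarith)]
    have h1 : ‖(exp w' - 1) * v + exp w' * (exp v - 1 - v)‖ ≤
        2 * (N * a) * (3 * n ^ 9 * a) + (3 * n ^ 9 * a) ^ 2 := by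
      refine (norm_add_le _ _).trans (add_le_add ?_ ?_)
      · rw [norm_mul]
        exact mul_le_mul hw'1 hvn (norm_nonneg _) (by positivity)
      · rw [norm_mul, hexp1, one_mul]
        exact hv2.trans (pow_le_pow_left₀ (norm_nonneg _) hvn 2)
    refine h1.trans ?_
    have h2 : 30 * n ^ 9 * a ^ 2 * (N / 2) ≤ 30 * n ^ 9 * a ^ 2 * ‖(N : ℂ) + d‖ := by gcongr
    refine le_trans ?_ h2
    have h3 : n ^ 9 ≤ N := by
      rw [hN]; exact pow_le_pow_right₀ hn (by norm_num)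
    have h4 : (3 * n ^ 9 * a) ^ 2 ≤ 9 * (N * n ^ 9 * a ^ 2) := by
      have : (3 * n ^ 9 * a) ^ 2 = 9 * (n ^ 9 * n ^ 9 * a ^ 2) := by ring
      rw [this]
      gcongr
    nlinarith [h4]
  have b2 : ‖(exp w' - 1 - w') * (-d) / (N * (N + d))‖ ≤ 4 * n ^ 9 * a ^ 2 := by
    rw [norm_div, norm_mul, norm_mul, norm_neg, Complex.norm_real, Real.norm_of_nonneg hN0.le,
      div_le_iff₀ (by positivity)]
    have h1 : ‖exp w' - 1 - w'‖ * ‖d‖ ≤ (N * a) ^ 2 * (2 * n ^ 9) :=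
      mul_le_mul hw'2 hd (norm_nonneg _) (by positivity)
    refine h1.trans ?_
    have h2 : 4 * n ^ 9 * a ^ 2 * (N * (N / 2)) ≤ 4 * n ^ 9 * a ^ 2 * (N * ‖(N : ℂ) + d‖) := by gcongr
    refine le_trans (le_of_eq ?_) h2
    ring
  have b3 : ‖(v + I * θ * d) / (N + d)‖ ≤ 14 * n ^ 9 * a ^ 2 := by
    rw [norm_div, div_le_iff₀ (by linarith)]
    refine hv.trans ?_
    have h2 : 14 * n ^ 9 * a ^ 2 * (N / 2) ≤ 14 * n ^ 9 * a ^ 2 * ‖(N : ℂ) + d‖ := by gcongr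
    refine le_trans ?_ h2
    rw [hN]
    have : 14 * n ^ 9 * a ^ 2 * (n ^ 16 / 2) = 7 * n ^ 7 * (n ^ 18 * a ^ 2) := by ring
    rw [this]
    have h3 : 0 ≤ n ^ 18 * a ^ 2 := by positivity
    nlinarith
  have hn9 : 1 ≤ n ^ 9 := one_le_pow₀ hn
  have b0 : ‖Ed - I * θ‖ ≤ 2 * n ^ 9 * a ^ 2 := by
    refine hE.trans ?_
    have : 0 ≤ a ^ 2 := by positivity
    nlinarith
  calc _ ≤ ‖Ed - I * θ‖ + ‖((exp w' - 1) * v + exp w' * (exp v - 1 - v)) / (N + d)‖ +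
        ‖(exp w' - 1 - w') * (-d) / (N * (N + d))‖ + ‖(v + I * θ * d) / (N + d)‖ :=
        (norm_add_le _ _).trans (add_le_add (norm_add₃_le) le_rfl)
    _ ≤ _ := by linarith

end Pool.Agent.Y852.ES
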