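import Pool.Agent.Y852.ES.Num2

/-!
Project ES: the full turn.
-/

set_option autoImplicit false

open Complex

namespace Pool.Agent.Y852.ES

theorem exp_le_two {L : ℝ} (h0 : 0 ≤ L) (h1 : L ≤ 1) : Real.exp L ≤ 1 + 2 * L := by
  have h := Real.norm_exp_sub_one_sub_id_le (x := L) (by rw [Real.norm_eq_abs, abs_of_nonneg h0]; exact h1)
  rw [Real.norm_eq_abs, Real.norm_eq_abs, sq_abs] at h
  have h2 := (abs_le.1 h).2
  nlinarith

theorem caseC {n u N θ : ℝ} {v d : ℂ} (hn : 100000 ≤ n) (hu : n * u = 1) (hN : N = n ^ 16)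
    (hd : ‖d‖ ≤ 2 * n ^ 9) (hb : |d.im| ≤ 64 * n ^ 2) (h1 : 1 ≤ N * |θ|)
    (h2 : N * |θ| ≤ 2 * Real.pi * (1 + u ^ 4)) (hv : ‖v‖ ≤ 28 * u ^ 7)
    (hvre : v.re ≤ 28 * |2 * Real.pi - N * (|θ|)| * u ^ 14 + 250 * u ^ 18) :
    ((exp (-(I * N * θ) + v) - 1) / (N + d)).re ≤ θ ^ 2 / 10 := by
  obtain ⟨hx1, hx2, hX⟩ := den hn hN hd
  have hn0 : 0 < n := by linarith
  have hN0 : 0 < N := by rw [hN]; positivity
  have hu0 : 0 < u := by
    have h5 : u = n⁻¹ := eq_inv_of_mul_eq_one_right hu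
    rw [h5]; positivity
  have hu1 : u ≤ 1 / 100000 := by
    have h5 : 100000 * u ≤ n * u := mul_le_mul_of_nonneg_right hn hu0.le
    rw [hu] at h5
    linarith
  have hpi := Real.pi_pos
  have hpi3 := Real.pi_gt_three
  have hpi4 := Real.pi_lt_d2
  have hu01 : u ≤ 1 := by linarith
  have hup : ∀ k : ℕ, 0 < u ^ k := fun k => pow_pos hu0 k
  have hu4 : u ^ 4 ≤ 1 / 100000 := (pow_le_of_le_one hu0.le hu01 (by norm_num)).trans hu1
  have hu7 : u ^ 7 ≤ 1 / 100000 := (pow_le_of_le_one hu0.le hu01 (by norm_num)).trans hu1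
  have hu14 : u ^ 14 ≤ 1 / 100000 := (pow_le_of_le_one hu0.le hu01 (by norm_num)).trans hu1
  have hu18 : u ^ 18 ≤ 1 / 100000 := (pow_le_of_le_one hu0.le hu01 (by norm_num)).trans hu1
  set D := |2 * Real.pi - N * (|θ|)| with hD
  have hD0 : 0 ≤ D := abs_nonneg _
  have hD7 : D ≤ 7 := by
    have h5 : 2 * Real.pi * (1 + u ^ 4) ≤ 7 := by
      have h6 : 2 * Real.pi * (1 + u ^ 4) ≤ 2 * 3.15 * (1 + 1 / 100000) := by gcongr
      refine h6.trans (by norm_num)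
    rw [hD, abs_le]
    constructor <;> linarith
  -- the angle
  obtain ⟨e, he, hcos⟩ : ∃ e : ℝ, |e| ≤ 28 * u ^ 7 ∧
      Real.cos (-(N * θ) + v.im) = Real.cos (N * |θ| + e) := by
    have h3 := (Complex.abs_im_le_norm v).trans hv
    rcases le_total 0 θ with h | h
    · refine ⟨-v.im, by rw [abs_neg]; exact h3, ?_⟩
      rw [abs_of_nonneg h, ← Real.cos_neg]
      congr 1
      ring
    · refine ⟨v.im, h3, ?_⟩
      rw [abs_of_nonpos h]
      congr 1
      ring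
  set ψ := -(N * θ) + v.im with hψ
  set z := 2 * Real.pi - (N * |θ| + e) with hz
  set Y := 1 - Real.cos ψ with hY
  have he' := abs_le.1 he
  have hYz : z ^ 2 / 200 ≤ Y := by
    rw [hY, hcos]
    have h5 : 2 * Real.pi * (1 + u ^ 4) ≤ 2 * Real.pi + 1 / 1000 := by
      have h6 : 2 * Real.pi * (1 + u ^ 4) = 2 * Real.pi + 2 * Real.pi * u ^ 4 := by ring
      have h7 : 2 * Real.pi * u ^ 4 ≤ 2 * 3.15 * (1 / 100000) := by gcongr
      have h8 : (2 : ℝ) * 3.15 * (1 / 100000) ≤ 1 / 1000 := by norm_num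
      linarith
    exact cos_low (by linarith) (by linarith)
  have hY0 : 0 ≤ Y := by rw [hY]; linarith [Real.cos_le_one ψ]
  have hY2 : Y ≤ 2 := by rw [hY]; linarith [Real.neg_one_le_cos ψ]
  have hDz : D ≤ |z| + 28 * u ^ 7 := by
    have : 2 * Real.pi - N * |θ| = z + e := by rw [hz]; ring
    rw [hD, this]
    exact (abs_add_le _ _).trans (by linarith)
  -- the modulus
  set L := 28 * D * u ^ 14 + 250 * u ^ 18 with hL
  have hL0 : 0 ≤ L := by positivity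
  have hL1 : L ≤ 1 := by
    rw [hL]
    have : 28 * D * u ^ 14 ≤ 28 * 7 * (1 / 100000) := by gcongr
    linarith
  set m := Real.exp v.re with hm
  have hm0 : 0 < m := Real.exp_pos _
  have hmL : m ≤ 1 + 2 * L := (Real.exp_le_exp.2 hvre).trans (exp_le_two hL0 hL1)
  have hm2 : m ≤ 3 := by linarith
  have harg : (-(I * N * θ) + v).re = v.re ∧ (-(I * N * θ) + v).im = ψ := by
    constructor
    · simp
    · simp [hψ]
  have hφre : (exp (-(I * N * θ) + v)).re = m * Real.cos ψ := by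
    rw [Complex.exp_re, harg.1, harg.2]
  have hφim : (exp (-(I * N * θ) + v)).im = m * Real.sin ψ := by
    rw [Complex.exp_im, harg.1, harg.2]
  set b := d.im with hbd
  set x := N + d.re with hx
  set X := ‖(N : ℂ) + d‖ with hXd
  have hXp : 0 < X := by linarith
  have eq1 : ((exp (-(I * N * θ) + v) - 1) / (N + d)).re =
      ((m * Real.cos ψ - 1) * x + m * Real.sin ψ * b) / X ^ 2 := by
    rw [Complex.div_re, Complex.normSq_eq_norm_sq, Complex.sub_re, Complex.sub_im, hφre, hφim]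
    have h5 : ((N : ℂ) + d).re = x := by simp [hx]
    have h6 : ((N : ℂ) + d).im = b := by simp [hbd]
    rw [h5, h6, Complex.one_re, Complex.one_im]
    ring
  rw [eq1]
  -- the numerator
  have t1 : m * Real.cos ψ - 1 ≤ -(Y / 2) + 2 * L := by
    have hcY : Real.cos ψ = 1 - Y := by rw [hY]; ring
    rw [hcY]
    by_cases hc : Y ≤ 1
    · have h5 : m * (1 - Y) ≤ (1 + 2 * L) * (1 - Y) := mul_le_mul_of_nonneg_right hmL (by linarith)
      have h6 : (1 + 2 * L) * (1 - Y) = 1 - Y + 2 * L - 2 * (L * Y) := by ring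
      have h7 : 0 ≤ L * Y := mul_nonneg hL0 hY0
      linarith
    · push Not at hc
      have h5 : 0 ≤ m * (Y - 1) := mul_nonneg hm0.le (by linarith)
      have h6 : m * (1 - Y) = -(m * (Y - 1)) := by ring
      linarith
  have t2 : (m * Real.cos ψ - 1) * x ≤ -(Y / 4) * N + 4 * L * N := by
    have h5 : (m * Real.cos ψ - 1) * x ≤ (-(Y / 2) + 2 * L) * x :=
      mul_le_mul_of_nonneg_right t1 (by linarith)
    have h6 : Y / 2 * (N / 2) ≤ Y / 2 * x := mul_le_mul_of_nonneg_left hx1 (by positivity)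
    have h7 : 2 * L * x ≤ 2 * L * (2 * N) := mul_le_mul_of_nonneg_left hx2 (by positivity)
    linarith
  have t3 : m * Real.sin ψ * b ≤ N * Y / 8 + 36 * b ^ 2 / N := by
    have hs : Real.sin ψ ^ 2 ≤ 2 * Y := by
      have h4 := Real.sin_sq_add_cos_sq ψ
      have hcY : Real.cos ψ = 1 - Y := by rw [hY]; ring
      rw [hcY] at h4
      have h5 : (1 - Y) ^ 2 = 1 - 2 * Y + Y ^ 2 := by ring
      have h6 : 0 ≤ Y ^ 2 := sq_nonneg Y
      linarith
    have h5 : m * Real.sin ψ * b ≤ 3 * (|Real.sin ψ| * |b|) := by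
      calc m * Real.sin ψ * b ≤ |m * Real.sin ψ * b| := le_abs_self _
        _ = m * (|Real.sin ψ| * |b|) := by
            rw [abs_mul, abs_mul, abs_of_pos hm0]; ring
        _ ≤ _ := mul_le_mul_of_nonneg_right hm2 (by positivity)
    have h6 : 3 * (|Real.sin ψ| * |b|) ≤ N * |Real.sin ψ| ^ 2 / 16 + 36 * |b| ^ 2 / N := by
      have h7 : 0 ≤ (N * |Real.sin ψ| / 4 - 6 * |b|) ^ 2 / N := by positivity
      have h8 : (N * |Real.sin ψ| / 4 - 6 * |b|) ^ 2 / N =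
          N * |Real.sin ψ| ^ 2 / 16 + 36 * |b| ^ 2 / N - 3 * (|Real.sin ψ| * |b|) := by
        field_simp; ring
      linarith
    rw [sq_abs, sq_abs] at h6
    have h9 : N * Real.sin ψ ^ 2 / 16 ≤ N * (2 * Y) / 16 := by gcongr
    linarith
  have t4 : 36 * b ^ 2 / N ≤ 147456 * u ^ 12 := by
    rw [div_le_iff₀ hN0, hN]
    have h5 : b ^ 2 ≤ 4096 * n ^ 4 := by
      have : b ^ 2 = |b| ^ 2 := (sq_abs _).symm
      rw [this]
      calc |b| ^ 2 ≤ (64 * n ^ 2) ^ 2 := pow_le_pow_left₀ (abs_nonneg _) hb 2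
        _ = _ := by ring
    have h6 : 147456 * u ^ 12 * n ^ 16 = 147456 * n ^ 4 * (n * u) ^ 12 := by ring
    rw [h6, hu]
    linarith
  have t5 : 4 * L * N = 112 * D * n ^ 2 + 1000 * u ^ 2 := by
    rw [hL, hN]
    have h5 : 4 * (28 * D * u ^ 14 + 250 * u ^ 18) * n ^ 16 =
        112 * D * n ^ 2 * (n * u) ^ 14 + 1000 * u ^ 2 * (n * u) ^ 16 := by ring
    rw [h5, hu]
    ring
  have t6 : 112 * D * n ^ 2 ≤ 112 * |z| * n ^ 2 + 3136 * u ^ 5 := by
    have h5 : 112 * D * n ^ 2 ≤ 112 * (|z| + 28 * u ^ 7) * n ^ 2 := by gcongr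
    have h6 : 112 * (|z| + 28 * u ^ 7) * n ^ 2 = 112 * |z| * n ^ 2 + 3136 * u ^ 5 * (n * u) ^ 2 := by ring
    rw [h6, hu] at h5
    linarith
  have t7 : 112 * |z| * n ^ 2 ≤ N * z ^ 2 / 1600 + 5017600 * u ^ 12 := by
    have h5 : 0 ≤ (n ^ 8 * |z| - 89600 * u ^ 6) ^ 2 / 1600 := by positivity
    have h6 : (n ^ 8 * |z| - 89600 * u ^ 6) ^ 2 / 1600 =
        n ^ 16 * |z| ^ 2 / 1600 + 5017600 * u ^ 12 - 112 * |z| * n ^ 2 * (n * u) ^ 6 := by ring
    rw [h6, hu, sq_abs] at h5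
    rw [hN]
    linarith
  have t8 : N * z ^ 2 / 1600 ≤ Y / 8 * N := by
    have : N * (z ^ 2 / 200) ≤ N * Y := mul_le_mul_of_nonneg_left hYz hN0.le
    linarith
  have hu2 : u ^ 2 ≤ 1 / 10000000000 := by
    calc u ^ 2 ≤ (1 / 100000) ^ 2 := pow_le_pow_left₀ hu0.le hu1 2
      _ = _ := by norm_num
  have hu5 : u ^ 5 ≤ u ^ 2 := pow_le_pow_of_le_one hu0.le hu01 (by norm_num)
  have hu12 : u ^ 12 ≤ u ^ 2 := pow_le_pow_of_le_one hu0.le hu01 (by norm_num)
  have tT : (m * Real.cos ψ - 1) * x + m * Real.sin ψ * b ≤ 1 / 40 := by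
    have : 147456 * u ^ 12 + 1000 * u ^ 2 + 3136 * u ^ 5 + 5017600 * u ^ 12 ≤ 1 / 40 := by
      linarith
    have e8 : N * Y / 8 = Y / 8 * N := by ring
    have e4 : -(Y / 4) * N = -(Y / 8 * N) - Y / 8 * N := by ring
    linarith
  have hX2 : N ^ 2 / 4 ≤ X ^ 2 := by
    have h5 : (N / 2) ^ 2 ≤ X ^ 2 := pow_le_pow_left₀ (by linarith) hX 2
    have h6 : (N / 2) ^ 2 = N ^ 2 / 4 := by ring
    rw [← h6]
    exact h5
  rw [div_le_iff₀ (by positivity)]
  have hθ2 : 1 ≤ N ^ 2 * θ ^ 2 := by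
    have : N ^ 2 * θ ^ 2 = (N * |θ|) ^ 2 := by rw [mul_pow, sq_abs]
    rw [this]
    exact one_le_pow₀ h1
  calc (m * Real.cos ψ - 1) * x + m * Real.sin ψ * b ≤ 1 / 40 := tT
    _ ≤ θ ^ 2 / 10 * (N ^ 2 / 4) := by linarith
    _ ≤ _ := by
        have : 0 ≤ θ ^ 2 / 10 := by positivity
        gcongr

end Pool.Agent.Y852.ES
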