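import Pool.Agent.Y852.ES.Epart
import Pool.Agent.Y852.ES.Hf
import Pool.Agent.Y852.ES.Num1
import Pool.Agent.Y852.ES.Num3

/-!
Project ES: the inequalities for `P` (S_IN).
-/

set_option autoImplicit false

open Complex MeasureTheory Metric Set Filter Topology ComplexConjugate

namespace Pool.Agent.Y852.ES

open Pool.Agent.Y245.SC

/-- the setting in integral powers -/
structure Dt (f H : ℂ → ℂ) (N r n u η : ℝ) (ζm : ℂ) : Prop where
  hn : 100000 ≤ n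
  hu : n * u = 1
  hN : N = n ^ 16
  rp : 0 < r
  zn : ‖ζm‖ = r
  f0 : f ζm ≠ 0
  mx : ∀ ζ : ℂ, ‖ζ‖ = r → ‖f ζ‖ ≤ ‖f ζm‖
  hd : DifferentiableOn ℂ H (ball 0 (u ^ 9))
  h0 : H 0 = 0
  h1 : ∀ τ ∈ ball (0 : ℂ) (u ^ 9), ‖H τ‖ ≤ 1
  wv : ∀ τ ∈ ball (0 : ℂ) (u ^ 9), f (ζm * exp τ) = f ζm * exp (N * τ + H τ)
  he : |η| ≤ Real.pi * u ^ 16 * (1 + u ^ 4)

section

variable {f H : ℂ → ℂ} {N r n u η : ℝ} {ζm : ℂ}

theorem Dt.n0 (D : Dt f H N r n u η ζm) : 0 < n := lt_of_lt_of_le (by norm_num) D.hn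

theorem Dt.ueq (D : Dt f H N r n u η ζm) : u = n⁻¹ := eq_inv_of_mul_eq_one_right D.hu

theorem Dt.u0 (D : Dt f H N r n u η ζm) : 0 < u := by rw [D.ueq]; exact inv_pos.2 D.n0

theorem Dt.u1 (D : Dt f H N r n u η ζm) : u ≤ 1 / 100000 := by
  have h5 : 100000 * u ≤ n * u := mul_le_mul_of_nonneg_right D.hn D.u0.le
  rw [D.hu] at h5
  linarith

theorem Dt.uk (D : Dt f H N r n u η ζm) {k : ℕ} (hk : k ≠ 0) : u ^ k ≤ 1 / 100000 :=
  (pow_le_of_le_one D.u0.le (D.u1.trans (by norm_num)) hk).trans D.u1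

theorem Dt.N0 (D : Dt f H N r n u η ζm) : 0 < N := by rw [D.hN]; exact pow_pos D.n0 _

theorem Dt.Nu (D : Dt f H N r n u η ζm) : N * u ^ 16 = 1 := by rw [D.hN, ← mul_pow, D.hu, one_pow]

theorem Dt.he4 (D : Dt f H N r n u η ζm) : |η| ≤ 4 * u ^ 16 := by
  have h := D.he
  have hpi4 := Real.pi_lt_d2
  have hpi := Real.pi_pos
  have h4 := D.uk (k := 4) (by norm_num)
  have h16 : 0 < u ^ 16 := pow_pos D.u0 _
  have h44 : 0 < u ^ 4 := pow_pos D.u0 _
  calc |η| ≤ Real.pi * u ^ 16 * (1 + u ^ 4) := h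
    _ ≤ 3.15 * u ^ 16 * (1 + 1 / 100000) := by gcongr
    _ ≤ 4 * u ^ 16 := by nlinarith

theorem Dt.d0 (D : Dt f H N r n u η ζm) : 0 < u ^ 9 := pow_pos D.u0 _

/-- `|s| ≤ 100 u^15` is well inside the disc -/
theorem Dt.small (D : Dt f H N r n u η ζm) {s : ℝ} (hs : |s| ≤ 100 * u ^ 15) : |s| ≤ u ^ 9 / 8 := by
  have h6 := D.uk (k := 6) (by norm_num)
  have h9 := D.d0
  have : 100 * u ^ 15 = (100 * u ^ 6) * u ^ 9 := by ring
  rw [this] at hs
  refine hs.trans ?_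
  have h3 : 100 * u ^ 6 ≤ 1 / 8 := by linarith
  calc 100 * u ^ 6 * u ^ 9 ≤ 1 / 8 * u ^ 9 := mul_le_mul_of_nonneg_right h3 h9.le
    _ = _ := by ring

theorem Dt.he15 (D : Dt f H N r n u η ζm) : |η| ≤ u ^ 15 := by
  refine D.he4.trans ?_
  have h1 := D.u1
  have : 4 * u ^ 16 = (4 * u) * u ^ 15 := by ring
  rw [this]
  have h3 : 0 < u ^ 15 := pow_pos D.u0 _
  nlinarith

theorem Dt.heta (D : Dt f H N r n u η ζm) : |η| ≤ u ^ 9 / 8 :=
  D.small (D.he15.trans (by have : 0 < u ^ 15 := pow_pos D.u0 _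
                            linarith))

theorem mem_b {s δ : ℝ} (hs : |s| < δ) : ((s : ℂ) * I) ∈ ball (0:ℂ) δ := by
  rw [mem_ball_zero_iff, norm_sI]; exact hs

theorem Dt.nf (D : Dt f H N r n u η ζm) {s : ℝ} (hs : |s| < u ^ 9) :
    ‖f (ζm * exp (s * I))‖ = ‖f ζm‖ * Real.exp (H (s * I)).re := by
  rw [D.wv _ (mem_b hs), norm_mul, Complex.norm_exp]
  congr 2
  simp

theorem Dt.zr (D : Dt f H N r n u η ζm) (s : ℝ) : ‖ζm * exp (s * I)‖ = r := by
  rw [norm_mul, Complex.norm_exp_ofReal_mul_I, mul_one, D.zn]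

theorem Dt.g0 (D : Dt f H N r n u η ζm) : ∀ s : ℝ, |s| < u ^ 9 → (H (s * I)).re ≤ 0 := by
  intro s hs
  have h := D.mx _ (D.zr s)
  rw [D.nf hs] at h
  have hp : 0 < ‖f ζm‖ := norm_pos_iff.2 D.f0
  have h2 : Real.exp (H (s * I)).re ≤ 1 := by
    have : ‖f ζm‖ * Real.exp (H (s * I)).re ≤ ‖f ζm‖ * 1 := by rw [mul_one]; exact h
    exact le_of_mul_le_mul_left this hp
  exact Real.exp_le_one_iff.1 h2

theorem Dt.dn (D : Dt f H N r n u η ζm) : ‖deriv H (η * I)‖ ≤ 2 * n ^ 9 := by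
  have h := derivH D.d0 D.hd D.h1 (z := η * I) (by
    rw [norm_sI]; have := D.heta; have := D.d0; linarith)
  refine h.trans (le_of_eq ?_)
  rw [D.ueq]
  have := D.n0
  field_simp

theorem Dt.dim (D : Dt f H N r n u η ζm) : |(deriv H (η * I)).im| ≤ 64 * n ^ 2 := by
  have h := Him D.d0 D.hd D.h1 D.h0 D.g0 D.heta
  refine h.trans ?_
  have h2 := D.he4
  rw [div_le_iff₀ (by have := D.d0; positivity)]
  have e : 64 * n ^ 2 * (u ^ 9) ^ 2 = 64 * u ^ 16 * (n * u) ^ 2 := by ring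
  rw [e, D.hu]
  linarith

/-- the quotient -/
noncomputable def ph (f : ℂ → ℂ) (ζm : ℂ) (η θ : ℝ) : ℂ :=
  f (ζm * exp (η * I) * exp (-(θ * I))) / f (ζm * exp (η * I))

theorem Dt.ph_eq (D : Dt f H N r n u η ζm) {θ : ℝ} (h : |η - θ| < u ^ 9) :
    ph f ζm η θ = exp (-(I * N * θ) + (H ((η - θ : ℝ) * I) - H (η * I))) := by
  have he : |η| < u ^ 9 := lt_of_le_of_lt D.heta (by have := D.d0; linarith)
  have e1 : ζm * exp (η * I) * exp (-(θ * I)) = ζm * exp ((η - θ : ℝ) * I) := by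
    rw [mul_assoc, ← Complex.exp_add]
    congr 2
    push_cast; ring
  unfold ph
  rw [e1, D.wv _ (mem_b h), D.wv _ (mem_b he), mul_div_mul_left _ _ D.f0, ← Complex.exp_sub]
  congr 1
  push_cast
  ring

theorem Dt.v12 (D : Dt f H N r n u η ζm) {θ : ℝ} (h : |θ| ≤ 100 * u ^ 15) :
    ‖H ((η - θ : ℝ) * I) - H (η * I)‖ ≤ 4 * n ^ 9 * |θ| ∧
    ‖(H ((η - θ : ℝ) * I) - H (η * I)) + I * θ * deriv H (η * I)‖ ≤ 8 * n ^ 18 * θ ^ 2 := by
  have h8 := D.small h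
  have hz : ‖(η : ℂ) * I‖ < u ^ 9 / 2 := by
    rw [norm_sI]; have := D.heta; have := D.d0; linarith
  have hτ : ‖(((-θ : ℝ) : ℂ) * I)‖ ≤ u ^ 9 / 4 := by
    rw [norm_sI, abs_neg]; have := D.d0; linarith
  obtain ⟨k1, k2⟩ := H12 D.d0 D.hd D.h1 hz hτ
  have e1 : (η : ℂ) * I + ((-θ : ℝ) : ℂ) * I = ((η - θ : ℝ) : ℂ) * I := by push_cast; ring
  rw [e1, norm_sI, abs_neg] at k1 k2
  have hn := D.n0
  constructor
  · refine k1.trans (le_of_eq ?_)
    rw [D.ueq]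
    field_simp
  · have e2 : (H ((η - θ : ℝ) * I) - H (η * I)) + I * θ * deriv H (η * I) =
        H ((η - θ : ℝ) * I) - H (η * I) - ((-θ : ℝ) : ℂ) * I * deriv H (η * I) := by push_cast; ring
    rw [e2]
    refine k2.trans (le_of_eq ?_)
    rw [D.ueq, sq_abs]
    field_simp

theorem Dt.g3 (D : Dt f H N r n u η ζm) : ∃ B : ℝ, 0 ≤ B ∧ B ≤ 8 * n ^ 18 ∧
    ∀ s : ℝ, |s| ≤ 100 * u ^ 15 → |(H (s * I)).re + B / 2 * s ^ 2| ≤ 16 * n ^ 27 * |s| ^ 3 := by
  obtain ⟨B, h1, h2, h3⟩ := H3 D.d0 D.hd D.h1 D.h0 D.g0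
  have hn := D.n0
  refine ⟨B, h1, h2.trans (le_of_eq ?_), fun s hs => ?_⟩
  · rw [D.ueq]; field_simp
  · have h8 := D.small hs
    refine (h3 s (by have := D.d0; linarith)).trans (le_of_eq ?_)
    rw [D.ueq]; field_simp

theorem Dt.re_eta (D : Dt f H N r n u η ζm) : -(65 * u ^ 14) ≤ (H (η * I)).re := by
  obtain ⟨B, h1, h2, h3⟩ := D.g3
  have hu := D.u0
  have hn := D.n0
  have h4 := h3 η (D.he15.trans (by have : 0 < u ^ 15 := pow_pos hu _
                                    linarith))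
  have h5 := (abs_le.1 h4).1
  have h6 : η ^ 2 ≤ 16 * u ^ 32 := by
    rw [← sq_abs]
    calc |η| ^ 2 ≤ (4 * u ^ 16) ^ 2 := pow_le_pow_left₀ (abs_nonneg _) D.he4 2
      _ = _ := by ring
  have h7 : |η| ^ 3 ≤ 64 * u ^ 48 := by
    calc |η| ^ 3 ≤ (4 * u ^ 16) ^ 3 := pow_le_pow_left₀ (abs_nonneg _) D.he4 3
      _ = _ := by ring
  have h8 : B / 2 * η ^ 2 ≤ 64 * u ^ 14 := by
    calc B / 2 * η ^ 2 ≤ (8 * n ^ 18) / 2 * (16 * u ^ 32) := by gcongr
      _ = 64 * u ^ 14 * (n * u) ^ 18 := by ring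
      _ = _ := by rw [D.hu]; ring
  have h9 : 16 * n ^ 27 * |η| ^ 3 ≤ u ^ 14 := by
    calc 16 * n ^ 27 * |η| ^ 3 ≤ 16 * n ^ 27 * (64 * u ^ 48) := by gcongr
      _ = 1024 * u ^ 7 * u ^ 14 * (n * u) ^ 27 := by ring
      _ = 1024 * u ^ 7 * u ^ 14 := by rw [D.hu]; ring
      _ ≤ 1 * u ^ 14 := by
          have := D.uk (k := 7) (by norm_num)
          gcongr
          linarith
      _ = _ := one_mul _
  linarith

theorem Dt.ph_le (D : Dt f H N r n u η ζm) (θ : ℝ) : ‖ph f ζm η θ‖ ≤ 1 + 130 * u ^ 14 := by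
  have he : |η| < u ^ 9 := lt_of_le_of_lt D.heta (by have := D.d0; linarith)
  have e1 : ζm * exp (η * I) * exp (-(θ * I)) = ζm * exp ((η - θ : ℝ) * I) := by
    rw [mul_assoc, ← Complex.exp_add]
    congr 2
    push_cast; ring
  have hp : 0 < ‖f ζm‖ := norm_pos_iff.2 D.f0
  unfold ph
  rw [e1, norm_div, D.nf he]
  have h1 := D.mx _ (D.zr (η - θ))
  have h2 : ‖f (ζm * exp ((η - θ : ℝ) * I))‖ / (‖f ζm‖ * Real.exp (H (η * I)).re) ≤
      Real.exp (-(H (η * I)).re) := by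
    rw [div_le_iff₀ (by positivity)]
    have : Real.exp (-(H (η * I)).re) * (‖f ζm‖ * Real.exp (H (η * I)).re) = ‖f ζm‖ := by
      rw [mul_left_comm, ← Real.exp_add, neg_add_cancel, Real.exp_zero, mul_one]
    rw [this]
    exact h1
  refine h2.trans ?_
  have h3 := D.re_eta
  have h14 := D.uk (k := 14) (by norm_num)
  have h140 : 0 < u ^ 14 := pow_pos D.u0 _
  have h4 : Real.exp (-(H (η * I)).re) ≤ Real.exp (65 * u ^ 14) := Real.exp_le_exp.2 (by linarith)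
  have h5 := exp_le_two (L := 65 * u ^ 14) (by positivity) (by linarith)
  linarith

/-- **the part of `f` is small** -/
theorem Dt.Q (D : Dt f H N r n u η ζm) {θ : ℝ} (hθ : u ^ 16 ≤ |θ|) :
    ((ph f ζm η θ - 1) / (N + deriv H (η * I))).re ≤ θ ^ 2 / 10 := by
  have hu := D.u0
  have hn := D.n0
  have hN0 := D.N0
  have hθ2 : u ^ 32 ≤ θ ^ 2 := by
    rw [← sq_abs θ]
    calc u ^ 32 = (u ^ 16) ^ 2 := by ring
      _ ≤ _ := pow_le_pow_left₀ (by positivity) hθ 2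
  have hNi : (1:ℝ) / N = u ^ 16 := by
    rw [div_eq_iff hN0.ne', mul_comm]; exact D.Nu.symm
  have err : 16384 * n ^ 4 / N ^ 3 ≤ θ ^ 2 / 20 := by
    have : 16384 * n ^ 4 / N ^ 3 = 16384 * n ^ 4 * (1 / N) ^ 3 := by field_simp
    rw [this, hNi]
    have e : 16384 * n ^ 4 * (u ^ 16) ^ 3 = (16384 * u ^ 12) * u ^ 32 * (n * u) ^ 4 := by ring
    rw [e, D.hu, one_pow, mul_one]
    have h12 : 16384 * u ^ 12 ≤ 1 / 20 := by
      have h12 : u ^ 12 ≤ u ^ 2 := pow_le_pow_of_le_one hu.le (D.u1.trans (by norm_num)) (by norm_num)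
      have h2 : u ^ 2 ≤ (1 / 100000) ^ 2 := pow_le_pow_left₀ hu.le D.u1 2
      have h3 : ((1:ℝ) / 100000) ^ 2 = 1 / 10000000000 := by norm_num
      linarith
    calc 16384 * u ^ 12 * u ^ 32 ≤ 1 / 20 * θ ^ 2 := by gcongr
      _ = _ := by ring
  by_cases hA : 80 * u ^ 15 ≤ |θ|
  · -- case A
    have h1 := caseAB (φ := ph f ζm η θ) (ε := 130 * u ^ 14) D.hn D.hN D.dn D.dim (by positivity) (D.ph_le θ)
    have h2 : 2 * (130 * u ^ 14) / N ≤ θ ^ 2 / 20 := by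
      have : 2 * (130 * u ^ 14) / N = 260 * u ^ 14 * (1 / N) := by field_simp; ring
      rw [this, hNi]
      have h3 : 6400 * u ^ 30 ≤ θ ^ 2 := by
        rw [← sq_abs θ]
        calc 6400 * u ^ 30 = (80 * u ^ 15) ^ 2 := by ring
          _ ≤ _ := pow_le_pow_left₀ (by positivity) hA 2
      have h4 : 260 * u ^ 14 * u ^ 16 = 260 * u ^ 30 := by ring
      have h5 : 0 < u ^ 30 := by positivity
      rw [h4]
      linarith
    linarith
  push Not at hA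
  have hθ100 : |θ| ≤ 100 * u ^ 15 := by
    have : 0 < u ^ 15 := by positivity
    linarith
  have hηθ : |η - θ| ≤ 100 * u ^ 15 := by
    have h1 := D.he15
    have h2 : |η - θ| ≤ |η| + |θ| := abs_sub _ _
    have : 0 < u ^ 15 := by positivity
    linarith
  have hlt : |η - θ| < u ^ 9 := lt_of_le_of_lt (D.small hηθ) (by have := D.d0; linarith)
  obtain ⟨hv1, hv2⟩ := D.v12 hθ100
  rw [D.ph_eq hlt]
  set v : ℂ := H ((η - θ : ℝ) * I) - H (η * I) with hv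
  obtain ⟨B, hB0, hB1, hB2⟩ := D.g3
  have hη100 : |η| ≤ 100 * u ^ 15 := D.he15.trans (by have : 0 < u ^ 15 := by positivity
                                                      linarith)
  have g1 := (abs_le.1 (hB2 _ hηθ)).2
  have g2 := (abs_le.1 (hB2 _ hη100)).1
  have hvre : v.re ≤ B / 2 * (η ^ 2 - (η - θ) ^ 2) + 16 * n ^ 27 * (|η - θ| ^ 3 + |η| ^ 3) := by
    rw [hv, Complex.sub_re]
    linarith
  have hη4 : |η| ≤ 4 * |θ| := D.he4.trans (by linarith)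
  by_cases hB : 0 ≤ θ * (θ - 2 * η)
  · -- case B
    have e1 : η ^ 2 - (η - θ) ^ 2 = -(θ * (θ - 2 * η)) := by ring
    rw [e1] at hvre
    have h3 : |η - θ| ≤ 5 * |θ| := (abs_sub _ _).trans (by linarith)
    have h4 : |η - θ| ^ 3 ≤ 125 * |θ| ^ 3 := by
      calc |η - θ| ^ 3 ≤ (5 * |θ|) ^ 3 := pow_le_pow_left₀ (abs_nonneg _) h3 3
        _ = _ := by ring
    have h5 : |η| ^ 3 ≤ 64 * |θ| ^ 3 := by
      calc |η| ^ 3 ≤ (4 * |θ|) ^ 3 := pow_le_pow_left₀ (abs_nonneg _) hη4 3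
        _ = _ := by ring
    set lm := 241920 * n ^ 12 * θ ^ 2 with hlm
    have h6 : v.re ≤ lm := by
      have h7 : B / 2 * -(θ * (θ - 2 * η)) ≤ 0 := by
        have : 0 ≤ B / 2 * (θ * (θ - 2 * η)) := by positivity
        linarith
      have h8 : 16 * n ^ 27 * (|η - θ| ^ 3 + |η| ^ 3) ≤ lm := by
        calc 16 * n ^ 27 * (|η - θ| ^ 3 + |η| ^ 3) ≤ 16 * n ^ 27 * (125 * |θ| ^ 3 + 64 * |θ| ^ 3) := by
              gcongr
          _ = 3024 * n ^ 27 * |θ| ^ 2 * |θ| := by ring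
          _ ≤ 3024 * n ^ 27 * |θ| ^ 2 * (80 * u ^ 15) := by gcongr
          _ = 241920 * n ^ 12 * |θ| ^ 2 * (n * u) ^ 15 := by ring
          _ = lm := by rw [D.hu, hlm, sq_abs]; ring
      linarith
    have hlm0 : 0 ≤ lm := by positivity
    have hlm1 : lm ≤ 1 := by
      have h7 : θ ^ 2 ≤ 6400 * u ^ 30 := by
        rw [← sq_abs θ]
        calc |θ| ^ 2 ≤ (80 * u ^ 15) ^ 2 := pow_le_pow_left₀ (abs_nonneg _) hA.le 2
          _ = _ := by ring
      calc lm ≤ 241920 * n ^ 12 * (6400 * u ^ 30) := by rw [hlm]; gcongr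
        _ = 1548288000 * u ^ 18 * (n * u) ^ 12 := by ring
        _ = 1548288000 * u ^ 18 := by rw [D.hu]; ring
        _ ≤ 1 := by
            have h12 : u ^ 18 ≤ u ^ 2 := pow_le_pow_of_le_one hu.le (D.u1.trans (by norm_num)) (by norm_num)
            have h2 : u ^ 2 ≤ (1 / 100000) ^ 2 := pow_le_pow_left₀ hu.le D.u1 2
            have h3 : ((1:ℝ) / 100000) ^ 2 = 1 / 10000000000 := by norm_num
            linarith
    have h9 : ‖exp (-(I * N * θ) + v)‖ ≤ 1 + 2 * lm := by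
      rw [Complex.norm_exp]
      have : (-(I * N * θ) + v).re = v.re := by simp
      rw [this]
      exact (Real.exp_le_exp.2 h6).trans (exp_le_two hlm0 hlm1)
    have h10 := caseAB (ε := 2 * lm) D.hn D.hN D.dn D.dim (by positivity) h9
    have h11 : 2 * (2 * lm) / N ≤ θ ^ 2 / 20 := by
      have : 2 * (2 * lm) / N = 4 * lm * (1 / N) := by field_simp; ring
      rw [this, hNi, hlm]
      have e : 4 * (241920 * n ^ 12 * θ ^ 2) * u ^ 16 = (967680 * u ^ 4) * θ ^ 2 * (n * u) ^ 12 := by ring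
      rw [e, D.hu, one_pow, mul_one]
      have h4 : 967680 * u ^ 4 ≤ 1 / 20 := by
        have h12 : u ^ 4 ≤ u ^ 2 := pow_le_pow_of_le_one hu.le (D.u1.trans (by norm_num)) (by norm_num)
        have h2 : u ^ 2 ≤ (1 / 100000) ^ 2 := pow_le_pow_left₀ hu.le D.u1 2
        have h3 : ((1:ℝ) / 100000) ^ 2 = 1 / 10000000000 := by norm_num
        linarith
      calc 967680 * u ^ 4 * θ ^ 2 ≤ 1 / 20 * θ ^ 2 := by gcongr
        _ = _ := by ring
    linarith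
  · -- case C
    push Not at hB
    have hD := D.he
    have hpi := Real.pi_pos
    have hpi4 := Real.pi_lt_d2
    have h4 := D.uk (k := 4) (by norm_num)
    have h40 : 0 < u ^ 4 := by positivity
    have h160 : 0 < u ^ 16 := by positivity
    obtain ⟨c1, c2, c3⟩ : |θ| ≤ 2 * |η| ∧ |η - θ| ≤ |η| ∧
        η ^ 2 - (η - θ) ^ 2 = |θ| * (2 * |η| - |θ|) := by
      rcases lt_trichotomy θ 0 with h | h | h
      · have h5 : 0 < θ - 2 * η := by
          by_contra hc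
          push Not at hc
          have : 0 ≤ θ * (θ - 2 * η) := mul_nonneg_of_nonpos_of_nonpos h.le hc
          linarith
        have h6 : η < 0 := by linarith
        rw [abs_of_neg h, abs_of_neg h6]
        refine ⟨by linarith, ?_, by ring⟩
        rw [abs_le]
        constructor <;> linarith
      · rw [h, zero_mul] at hB; exact absurd hB (lt_irrefl _)
      · have h5 : θ - 2 * η < 0 := by
          by_contra hc
          push Not at hc
          have : 0 ≤ θ * (θ - 2 * η) := mul_nonneg h.le hc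
          linarith
        have h6 : 0 < η := by linarith
        rw [abs_of_pos h, abs_of_pos h6]
        refine ⟨by linarith, ?_, by ring⟩
        rw [abs_le]
        constructor <;> linarith
    have hηN : N * |η| ≤ Real.pi * (1 + u ^ 4) := by
      calc N * |η| ≤ N * (Real.pi * u ^ 16 * (1 + u ^ 4)) := by gcongr
        _ = (N * u ^ 16) * (Real.pi * (1 + u ^ 4)) := by ring
        _ = _ := by rw [D.Nu, one_mul]
    have hθ1 : 1 ≤ N * |θ| := by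
      rw [← D.Nu]
      gcongr
    have hθN : N * |θ| ≤ 2 * Real.pi * (1 + u ^ 4) := by
      calc N * |θ| ≤ N * (2 * |η|) := by gcongr
        _ ≤ _ := by linarith
    have hθ7 : |θ| ≤ 7 * u ^ 16 := by
      calc |θ| ≤ 2 * |η| := c1
        _ ≤ 2 * (Real.pi * u ^ 16 * (1 + u ^ 4)) := by gcongr
        _ ≤ 2 * (3.15 * u ^ 16 * (1 + 1 / 100000)) := by gcongr
        _ ≤ 7 * u ^ 16 := by nlinarith
    have hvn : ‖v‖ ≤ 28 * u ^ 7 := by
      calc ‖v‖ ≤ 4 * n ^ 9 * |θ| := hv1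
        _ ≤ 4 * n ^ 9 * (7 * u ^ 16) := by gcongr
        _ = 28 * u ^ 7 * (n * u) ^ 9 := by ring
        _ = _ := by rw [D.hu]; ring
    have hre : v.re ≤ 28 * |2 * Real.pi - N * (|θ|)| * u ^ 14 + 250 * u ^ 18 := by
      set E := |2 * Real.pi - N * (|θ|)| with hE
      have hE0 : 0 ≤ E := abs_nonneg _
      rw [c3] at hvre
      have k1 : 2 * |η| - |θ| ≤ u ^ 16 * (E + 7 * u ^ 4) := by
        have k2 : 2 * |η| - |θ| = u ^ 16 * (2 * (N * |η|) - N * |θ|) := by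
          have : u ^ 16 * (2 * (N * |η|) - N * |θ|) = (N * u ^ 16) * (2 * |η| - |θ|) := by ring
          rw [this, D.Nu, one_mul]
        rw [k2]
        have k3 : 2 * (N * |η|) - N * |θ| ≤ E + 7 * u ^ 4 := by
          have k4 : 2 * Real.pi - N * |θ| ≤ E := le_abs_self _
          have k5 : 2 * Real.pi * u ^ 4 ≤ 7 * u ^ 4 := by
            have : 2 * Real.pi ≤ 7 := by linarith
            gcongr
          linarith
        gcongr
      have k0 : 0 ≤ 2 * |η| - |θ| := by linarith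
      have k6 : B / 2 * (|θ| * (2 * |η| - |θ|)) ≤ 28 * E * u ^ 14 + 196 * u ^ 18 := by
        calc B / 2 * (|θ| * (2 * |η| - |θ|)) ≤ (8 * n ^ 18) / 2 * ((7 * u ^ 16) * (u ^ 16 * (E + 7 * u ^ 4))) := by
              gcongr
          _ = (28 * E * u ^ 14 + 196 * u ^ 18) * (n * u) ^ 18 := by ring
          _ = _ := by rw [D.hu]; ring
      have k7 : |η - θ| ^ 3 ≤ (4 * u ^ 16) ^ 3 :=
        pow_le_pow_left₀ (abs_nonneg _) (c2.trans D.he4) 3
      have k8 : |η| ^ 3 ≤ (4 * u ^ 16) ^ 3 := pow_le_pow_left₀ (abs_nonneg _) D.he4 3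
      have k9 : 16 * n ^ 27 * (|η - θ| ^ 3 + |η| ^ 3) ≤ 54 * u ^ 18 := by
        calc 16 * n ^ 27 * (|η - θ| ^ 3 + |η| ^ 3) ≤ 16 * n ^ 27 * ((4 * u ^ 16) ^ 3 + (4 * u ^ 16) ^ 3) := by
              gcongr
          _ = 2048 * u ^ 3 * u ^ 18 * (n * u) ^ 27 := by ring
          _ = 2048 * u ^ 3 * u ^ 18 := by rw [D.hu]; ring
          _ ≤ 54 * u ^ 18 := by
              have h3 := D.uk (k := 3) (by norm_num)
              gcongr
              linarith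
      linarith
    exact caseC D.hn D.hu D.hN D.dn D.dim hθ1 hθN hvn hre

end

/-- **The inequalities for `P`.** -/
theorem inq : S_IN := by
  intro c ρ x hρ hx hd
  obtain ⟨C0, r0, hC0, hr0, hE⟩ := epart c ρ x hρ hx hd
  refine ⟨max (10 ^ 80) (⌈max r0 (100 * C0)⌉₊), 50, ?_⟩
  intro f N r ζm H η hN1 hr1 hW hη
  obtain ⟨w1, w2, w3, w4, w5, w6, w7, w8⟩ := hW
  have hNN : (10:ℝ) ^ 80 ≤ (N : ℝ) := by
    have : 10 ^ 80 ≤ N := (le_max_left _ _).trans hN1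
    exact_mod_cast this
  have hr2 : max r0 (100 * C0) ≤ r := by
    have h1 : (⌈max r0 (100 * C0)⌉₊ : ℝ) ≤ ((max (10 ^ 80) (⌈max r0 (100 * C0)⌉₊) : ℕ) : ℝ) := by
      exact_mod_cast le_max_right _ _
    exact (Nat.le_ceil _).trans (h1.trans hr1)
  have hr3 : r0 ≤ r := (le_max_left _ _).trans hr2
  have hr4 : 100 * C0 ≤ r := (le_max_right _ _).trans hr2
  have hN0 : (0:ℝ) < N := lt_of_lt_of_le (by norm_num) hNN
  set n : ℝ := (N : ℝ) ^ (1 / 16 : ℝ) with hn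
  have hn0 : 0 < n := Real.rpow_pos_of_pos hN0 _
  have hn16 : (N : ℝ) = n ^ 16 := by
    rw [hn, ← Real.rpow_natCast, ← Real.rpow_mul hN0.le]
    norm_num
  have hn5 : 100000 ≤ n := by
    have h1 : ((100000:ℝ)) ^ 16 ≤ n ^ 16 := by
      rw [← hn16]
      refine le_trans (le_of_eq ?_) hNN
      norm_num
    exact le_of_pow_le_pow_left₀ (by norm_num) hn0.le h1
  set u : ℝ := n⁻¹ with hu
  have hnu : n * u = 1 := mul_inv_cancel₀ hn0.ne'
  have hu0 : 0 < u := inv_pos.2 hn0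
  have e9 : (N : ℝ) ^ (-(9 / 16 : ℝ)) = u ^ 9 := by
    rw [hu, hn, ← Real.rpow_neg hN0.le, ← Real.rpow_natCast, ← Real.rpow_mul hN0.le]
    norm_num
  have e4 : (N : ℝ) ^ (-(1 / 4 : ℝ)) = u ^ 4 := by
    rw [hu, hn, ← Real.rpow_neg hN0.le, ← Real.rpow_natCast, ← Real.rpow_mul hN0.le]
    norm_num
  have e14 : (N : ℝ) ^ (7 / 8 : ℝ) = n ^ 14 := by
    rw [hn, ← Real.rpow_natCast, ← Real.rpow_mul hN0.le]
    norm_num
  rw [e9] at w5 w7 w8
  rw [e4] at hη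
  have hNu : (N : ℝ) * u ^ 16 = 1 := by rw [hn16, ← mul_pow, hnu, one_pow]
  have hNi : (1:ℝ) / N = u ^ 16 := by
    rw [div_eq_iff hN0.ne', mul_comm]; exact hNu.symm
  have hD : Dt f H N r n u η ζm := by
    refine ⟨hn5, hnu, hn16, w1, w2, w3, w4, w5, w6, w7, fun τ hτ => ?_, ?_⟩
    · have := w8 τ hτ
      rw [this]
      push_cast
      rfl
    · refine hη.trans (le_of_eq ?_)
      have : Real.pi / (N:ℝ) = Real.pi * (1 / N) := by ring
      rw [this, hNi]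
  -- decomposition of `P`
  set zs : ℂ := ζm * exp (η * I) with hzs
  have hzr : ‖zs‖ = r := hD.zr η
  set Ed : ℝ → ℂ := fun θ => (x (c + exp (θ * I) / zs) - x (c + 1 / zs)) * zs / deriv x (c + 1 / zs) with hEd
  have hPP : ∀ θ : ℝ, PP c x f N H ζm η θ = Ed θ + (ph f ζm η θ - 1) / (((N : ℝ) : ℂ) + deriv H (η * I)) := by
    intro θ
    rw [hEd, PP, ph, ← hzs]
    push_cast
    rfl
  have hEb : ∀ θ : ℝ, ‖Ed θ - (exp (θ * I) - 1)‖ ≤ θ ^ 2 / 100 := by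
    intro θ
    have h1 := hE zs θ (by rw [hzr]; exact hr3)
    refine h1.trans ?_
    rw [hzr, div_le_iff₀ w1]
    nlinarith [sq_nonneg θ]
  have hsmall : ∀ θ : ℝ, |θ| ≤ 1 / N → (N : ℝ) * |θ| ≤ 1 ∧ |θ| ≤ 100 * u ^ 15 := by
    intro θ hθ
    rw [hNi] at hθ
    constructor
    · calc (N : ℝ) * |θ| ≤ N * u ^ 16 := by gcongr
        _ = 1 := hNu
    · refine hθ.trans ?_
      have h1 := hD.u1
      have : u ^ 16 = u * u ^ 15 := by ring
      rw [this]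
      have h2 : 0 < u ^ 15 := by positivity
      nlinarith
  have hn7 : 800 ≤ n ^ 7 := by
    have : (100000:ℝ) ^ 7 ≤ n ^ 7 := pow_le_pow_left₀ (by norm_num) hn5 7
    linarith [this, (by norm_num : (800:ℝ) ≤ 100000 ^ 7)]
  have hcore : ∀ θ : ℝ, |θ| ≤ 1 / N → ‖PP c x f N H ζm η θ -
      (exp (-(I * (N : ℝ) * θ)) - 1 + I * (N : ℝ) * θ) / (N : ℝ)‖ ≤ 50 * n ^ 9 * θ ^ 2 := by
    intro θ hθ
    obtain ⟨k1, k2⟩ := hsmall θ hθ
    obtain ⟨v1, v2⟩ := hD.v12 k2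
    have hlt : |η - θ| < u ^ 9 := by
      have h1 : |η - θ| ≤ |η| + |θ| := abs_sub _ _
      have h2 := hD.heta
      have h3 := hD.small k2
      have := hD.d0
      linarith
    have hθ1 : |θ| ≤ 1 := by
      have h15 := hD.uk (k := 15) (by norm_num)
      linarith
    have hEI : ‖Ed θ - I * θ‖ ≤ 2 * θ ^ 2 := by
      have h1 : ‖(θ : ℂ) * I‖ = |θ| := norm_sI θ
      have h2 := Complex.norm_exp_sub_one_sub_id_le (x := (θ : ℂ) * I) (by rw [h1]; exact hθ1)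
      rw [h1, sq_abs] at h2
      calc ‖Ed θ - I * θ‖ = ‖(Ed θ - (exp (θ * I) - 1)) + (exp (θ * I) - 1 - θ * I)‖ := by
            congr 1; ring
        _ ≤ _ := norm_add_le _ _
        _ ≤ θ ^ 2 / 100 + θ ^ 2 := add_le_add (hEb θ) h2
        _ ≤ _ := by nlinarith [sq_nonneg θ]
    rw [hPP, hD.ph_eq hlt]
    exact part1 (by linarith) (by linarith) hn16 k1 hEI v2 hD.dn
  refine ⟨fun θ hθ => ?_, fun θ hθ1 hθ2 => ?_, fun θ hθ => ?_⟩
  · have h1 := hcore θ hθ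
    have h2 := part1a hN0 (hsmall θ hθ).1
    have h3 := (Complex.re_le_norm _).trans h1
    rw [Complex.sub_re] at h3
    have h4 : 50 * n ^ 9 * θ ^ 2 ≤ N * θ ^ 2 / 8 := by
      rw [hn16]
      have : n ^ 16 * θ ^ 2 / 8 = (n ^ 7 / 8) * (n ^ 9 * θ ^ 2) := by ring
      rw [this, mul_assoc]
      have h5 : 0 ≤ n ^ 9 * θ ^ 2 := by positivity
      nlinarith
    linarith
  · rw [hNi] at hθ1
    have h1 := hD.Q hθ1
    rw [hPP, Complex.add_re]
    have h2 := (Complex.re_le_norm _).trans (hEb θ)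
    rw [Complex.sub_re, Complex.sub_re, Complex.exp_ofReal_mul_I_re, Complex.one_re] at h2
    have h3 := Real.cos_le_one_sub_mul_cos_sq hθ2
    have h4 : 1 / 5 ≤ 2 / Real.pi ^ 2 := by
      have hpi4 := Real.pi_lt_d2
      have hpi := Real.pi_pos
      rw [div_le_div_iff₀ (by norm_num) (by positivity)]
      nlinarith
    have h5 : 1 / 5 * θ ^ 2 ≤ 2 / Real.pi ^ 2 * θ ^ 2 := mul_le_mul_of_nonneg_right h4 (sq_nonneg θ)
    have h6 := sq_nonneg θ
    linarith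
  · have h1 := hcore θ hθ
    have h2 := part1b hN0 (hsmall θ hθ).1
    have e1 : PP c x f N H ζm η θ + N * θ ^ 2 / 2 = (PP c x f N H ζm η θ -
        (exp (-(I * (N : ℝ) * θ)) - 1 + I * (N : ℝ) * θ) / (N : ℝ)) +
        ((exp (-(I * (N : ℝ) * θ)) - 1 + I * (N : ℝ) * θ) / (N : ℝ) + (N : ℝ) * θ ^ 2 / 2) := by
      push_cast; ring
    rw [e1, e14]
    refine (norm_add_le _ _).trans ((add_le_add h1 h2).trans ?_)
    have h3 : n ^ 9 ≤ n ^ 14 := pow_le_pow_right₀ (by linarith) (by norm_num)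
    have h4 : n ^ 9 * θ ^ 2 ≤ n ^ 14 * θ ^ 2 := mul_le_mul_of_nonneg_right h3 (sq_nonneg θ)
    have h5 : 0 ≤ (N : ℝ) ^ 2 * |θ| ^ 3 := by positivity
    linarith

end Pool.Agent.Y852.ES
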