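import Pool.Agent.Y852.ES.Tay

/-!
Project ES: the part of `P` which comes from `x`.
-/

set_option autoImplicit false

open Complex MeasureTheory Metric Set Filter Topology ComplexConjugate

namespace Pool.Agent.Y852.ES

theorem exp_I_sub (θ : ℝ) : ‖exp (θ * I) - 1‖ ≤ |θ| := by
  have h := Real.norm_exp_I_mul_ofReal_sub_one_le (x := θ)
  rw [mul_comm, Real.norm_eq_abs] at h
  exact h

theorem epart (c : ℂ) (ρ : ℝ) (x : ℂ → ℂ) (hρ : 0 < ρ) (hx : DifferentiableOn ℂ x (ball c ρ))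
    (hd : deriv x c ≠ 0) : ∃ C0 r0 : ℝ, 0 < C0 ∧ 0 < r0 ∧ ∀ (zs : ℂ) (θ : ℝ), r0 ≤ ‖zs‖ →
      ‖(x (c + exp (θ * I) / zs) - x (c + 1 / zs)) * zs / deriv x (c + 1 / zs) - (exp (θ * I) - 1)‖ ≤
        C0 * θ ^ 2 / ‖zs‖ := by
  have hcb : closedBall c (ρ / 2) ⊆ ball c ρ := closedBall_subset_ball (by linarith)
  obtain ⟨M, hM⟩ := (isCompact_closedBall c (ρ / 2)).exists_bound_of_continuousOn
    (hx.continuousOn.mono hcb)
  have hM0 : 0 ≤ M := (norm_nonneg _).trans (hM c (mem_closedBall_self (by linarith)))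
  set κ := ‖deriv x c‖ with hκ
  have hκ0 : 0 < κ := norm_pos_iff.2 hd
  have hcont : ContinuousAt (deriv x) c :=
    ((hx.deriv isOpen_ball).differentiableAt (isOpen_ball.mem_nhds (mem_ball_self hρ))).continuousAt
  have hev : ∀ᶠ a in 𝓝 c, κ / 2 < ‖deriv x a‖ :=
    hcont.norm.eventually (lt_mem_nhds (by change κ / 2 < κ; linarith))
  obtain ⟨r1, hr1, hball⟩ := Metric.eventually_nhds_iff_ball.1 hev
  refine ⟨64 * M / (ρ ^ 2 * κ) + 1, max (16 / ρ) (2 / r1), by positivity, by positivity, ?_⟩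
  intro zs θ hz
  have hz1 : 16 / ρ ≤ ‖zs‖ := (le_max_left _ _).trans hz
  have hz2 : 2 / r1 ≤ ‖zs‖ := (le_max_right _ _).trans hz
  have hzp : 0 < ‖zs‖ := lt_of_lt_of_le (by positivity) hz1
  have hz0 : zs ≠ 0 := norm_pos_iff.1 hzp
  have hz1' : 16 ≤ ρ * ‖zs‖ := by rw [div_le_iff₀ hρ] at hz1; linarith
  have hz2' : 2 ≤ r1 * ‖zs‖ := by rw [div_le_iff₀ hr1] at hz2; linarith
  set a := c + 1 / zs with ha
  set τ := (exp (θ * I) - 1) / zs with hτ
  have hτn : ‖τ‖ ≤ |θ| / ‖zs‖ := by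
    rw [hτ, norm_div]
    gcongr
    exact exp_I_sub θ
  have hτ2 : ‖τ‖ ≤ 2 / ‖zs‖ := by
    rw [hτ, norm_div]
    gcongr
    calc ‖exp (θ * I) - 1‖ ≤ ‖exp (θ * I)‖ + ‖(1:ℂ)‖ := norm_sub_le _ _
      _ = 2 := by rw [Complex.norm_exp_ofReal_mul_I, norm_one]; norm_num
  have hinv : 1 / ‖zs‖ ≤ ρ / 16 := by
    rw [div_le_div_iff₀ hzp (by norm_num)]; linarith
  have hτ8 : ‖τ‖ ≤ ρ / 8 := by
    have : 2 / ‖zs‖ = 2 * (1 / ‖zs‖) := by ring
    linarith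
  have hac : ‖a - c‖ = 1 / ‖zs‖ := by
    rw [ha, add_sub_cancel_left, norm_div, norm_one]
  have haK : closedBall a (ρ / 4) ⊆ closedBall c (ρ / 2) := by
    intro w hw
    rw [mem_closedBall_iff_norm] at hw ⊢
    calc ‖w - c‖ = ‖(w - a) + (a - c)‖ := by rw [sub_add_sub_cancel]
      _ ≤ ‖w - a‖ + ‖a - c‖ := norm_add_le _ _
      _ ≤ ρ / 2 := by rw [hac]; linarith
  have hda : κ / 2 < ‖deriv x a‖ := by
    refine hball a ?_
    rw [mem_ball_iff_norm, hac, div_lt_iff₀ hzp]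
    linarith
  have hda0 : deriv x a ≠ 0 := by
    intro h; rw [h, norm_zero] at hda; linarith
  have h := tay (F := x) (z0 := a) (R := ρ / 4) (M := M) (by linarith) (hx.mono (haK.trans hcb))
    (fun z hz => hM z (haK hz)) (τ := τ) (by linarith) 2
  simp only [Finset.sum_range_succ, Finset.sum_range_zero, zero_add, Nat.factorial_zero, Nat.cast_one,
    inv_one, one_mul, pow_zero, iteratedDeriv_zero, pow_one, Nat.factorial_one, iteratedDeriv_one] at h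
  have e1 : c + exp (θ * I) / zs = a + τ := by
    rw [ha, hτ]; field_simp; ring
  have e2 : (x (c + exp (θ * I) / zs) - x a) * zs / deriv x a - (exp (θ * I) - 1) =
      (x (a + τ) - (x a + τ * deriv x a)) * zs / deriv x a := by
    rw [e1, hτ]
    field_simp
    ring
  rw [e2, norm_div, norm_mul, div_le_iff₀ (by linarith)]
  calc ‖x (a + τ) - (x a + τ * deriv x a)‖ * ‖zs‖ ≤ 2 * M * (‖τ‖ / (ρ / 4)) ^ 2 * ‖zs‖ := by gcongr
    _ ≤ 2 * M * ((|θ| / ‖zs‖) / (ρ / 4)) ^ 2 * ‖zs‖ := by gcongr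
    _ = (64 * M / (ρ ^ 2 * κ)) * θ ^ 2 / ‖zs‖ * (κ / 2) := by
        rw [← sq_abs θ]
        field_simp
        ring
    _ ≤ (64 * M / (ρ ^ 2 * κ) + 1) * θ ^ 2 / ‖zs‖ * ‖deriv x a‖ := by
        gcongr
        linarith

end Pool.Agent.Y852.ES
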