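import Mathlib

/-!
Project ES: numerical lemmas.
-/

set_option autoImplicit false

open Complex

namespace Pool.Agent.Y852.ES

theorem part1a {N θ : ℝ} (hN0 : 0 < N) (hθ : N * |θ| ≤ 1) :
    ((exp (-(I * N * θ)) - 1 + I * N * θ) / N).re ≤ -(N * θ ^ 2 / 4) := by
  have e1 : (exp (-(I * N * θ)) - 1 + I * N * θ) / N = ((N⁻¹ : ℝ) : ℂ) * (exp (-(I * N * θ)) - 1 + I * N * θ) := by
    push_cast; rw [div_eq_mul_inv, mul_comm]
  rw [e1, Complex.re_ofReal_mul]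
  have e2 : (exp (-(I * N * θ)) - 1 + I * N * θ).re = Real.cos (N * θ) - 1 := by
    have : -(I * N * θ) = ((-(N * θ) : ℝ) : ℂ) * I := by push_cast; ring
    rw [this, Complex.add_re, Complex.sub_re, Complex.exp_ofReal_mul_I_re]
    simp [Real.cos_neg]
  rw [e2]
  have hx : |N * θ| ≤ 1 := by rw [abs_mul, abs_of_pos hN0]; exact hθ
  have h1 := (abs_le.1 (Real.cos_bound hx)).2
  have h2 : |N * θ| ^ 4 ≤ (N * θ) ^ 2 := by
    have : |N * θ| ^ 4 = (N * θ) ^ 2 * |N * θ| ^ 2 := by rw [← sq_abs (N * θ)]; ring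
    rw [this]
    have h3 : |N * θ| ^ 2 ≤ 1 := by nlinarith [abs_nonneg (N * θ)]
    nlinarith [sq_nonneg (N * θ)]
  have h4 : Real.cos (N * θ) - 1 ≤ -((N * θ) ^ 2 / 4) := by nlinarith [sq_nonneg (N * θ)]
  calc N⁻¹ * (Real.cos (N * θ) - 1) ≤ N⁻¹ * (-((N * θ) ^ 2 / 4)) :=
        mul_le_mul_of_nonneg_left h4 (by positivity)
    _ = _ := by field_simp

theorem part1b {N θ : ℝ} (hN0 : 0 < N) (hθ : N * |θ| ≤ 1) :
    ‖(exp (-(I * N * θ)) - 1 + I * N * θ) / N + N * θ ^ 2 / 2‖ ≤ N ^ 2 * |θ| ^ 3 := by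
  set w : ℂ := -(I * N * θ) with hw
  have hwn : ‖w‖ = N * |θ| := by
    rw [hw, norm_neg, norm_mul, norm_mul, Complex.norm_I, one_mul, Complex.norm_real, Complex.norm_real,
      Real.norm_of_nonneg hN0.le, Real.norm_eq_abs]
  have hNc : (N : ℂ) ≠ 0 := by exact_mod_cast hN0.ne'
  have h1 := Complex.exp_bound (x := w) (by rw [hwn]; exact hθ) (n := 3) (by norm_num)
  have e1 : (exp w - 1 + I * N * θ) / N + N * θ ^ 2 / 2 =
      (exp w - ∑ m ∈ Finset.range 3, w ^ m / (m.factorial : ℂ)) / N := by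
    simp only [Finset.sum_range_succ, Finset.sum_range_zero, Nat.factorial]
    have hw2 : w ^ 2 = -(N ^ 2 * θ ^ 2) := by
      rw [hw]
      have : I ^ 2 = -1 := I_sq
      linear_combination (N ^ 2 * θ ^ 2) * this
    push_cast
    field_simp
    rw [hw2, hw]
    ring
  rw [e1, norm_div, Complex.norm_real, Real.norm_of_nonneg hN0.le, div_le_iff₀ hN0]
  refine h1.trans ?_
  rw [hwn]
  have h2 : ((Nat.succ 3 : ℕ) : ℝ) * (((Nat.factorial 3 : ℕ) : ℝ) * ((3 : ℕ) : ℝ))⁻¹ ≤ 1 := by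
    simp only [Nat.factorial]
    norm_num
  have h3 : 0 ≤ (N * |θ|) ^ 3 := by positivity
  calc (N * |θ|) ^ 3 * (((Nat.succ 3 : ℕ) : ℝ) * (((Nat.factorial 3 : ℕ) : ℝ) * ((3 : ℕ) : ℝ))⁻¹)
      ≤ (N * |θ|) ^ 3 * 1 := mul_le_mul_of_nonneg_left h2 h3
    _ = _ := by ring

/-- sizes of the denominator -/
theorem den {n N : ℝ} {d : ℂ} (hn : 100000 ≤ n) (hN : N = n ^ 16) (hd : ‖d‖ ≤ 2 * n ^ 9) :
    N / 2 ≤ N + d.re ∧ N + d.re ≤ 2 * N ∧ N / 2 ≤ ‖(N : ℂ) + d‖ := by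
  have hn0 : 0 < n := by linarith
  have h7 : 4 ≤ n ^ 7 := by
    have : (100000:ℝ) ^ 7 ≤ n ^ 7 := pow_le_pow_left₀ (by norm_num) hn 7
    linarith [this, (by norm_num : (4:ℝ) ≤ 100000 ^ 7)]
  have hN0 : 0 < N := by rw [hN]; positivity
  have hd2 : ‖d‖ ≤ N / 2 := by
    have h16 : n ^ 16 = n ^ 9 * n ^ 7 := by ring
    rw [hN, h16]
    have : 0 ≤ n ^ 9 := by positivity
    nlinarith
  have hre := abs_le.1 ((Complex.abs_re_le_norm d).trans hd2)
  have h1 : N / 2 ≤ N + d.re := by linarith [hre.1]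
  refine ⟨h1, by linarith [hre.2], ?_⟩
  have h2 : ((N : ℂ) + d).re = N + d.re := by simp
  have h3 := Complex.abs_re_le_norm ((N : ℂ) + d)
  rw [h2] at h3
  exact h1.trans ((le_abs_self _).trans h3)

/-- the modulus bound -/
theorem caseAB {n N ε : ℝ} {φ d : ℂ} (hn : 100000 ≤ n) (hN : N = n ^ 16) (hd : ‖d‖ ≤ 2 * n ^ 9)
    (hb : |d.im| ≤ 64 * n ^ 2) (hε : 0 ≤ ε) (hφ : ‖φ‖ ≤ 1 + ε) :
    ((φ - 1) / (N + d)).re ≤ 2 * ε / N + 16384 * n ^ 4 / N ^ 3 := by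
  obtain ⟨hx1, hx2, hX⟩ := den hn hN hd
  have hn0 : 0 < n := by linarith
  have hN0 : 0 < N := by rw [hN]; positivity
  set Nc : ℂ := (N : ℂ) + d with hNc
  set X := ‖Nc‖ with hXd
  have hXp : 0 < X := by linarith
  set x := N + d.re with hx
  have hre : Nc.re = x := by rw [hNc]; simp [hx]
  have him : Nc.im = d.im := by rw [hNc]; simp
  have hX2 : X ^ 2 = x ^ 2 + d.im ^ 2 := by
    rw [hXd, ← Complex.normSq_eq_norm_sq, Complex.normSq_apply, hre, him]; ring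
  have e1 : ((φ - 1) / Nc).re = (φ / Nc).re - x / X ^ 2 := by
    rw [sub_div, Complex.sub_re]
    congr 1
    rw [one_div, Complex.inv_re, hre, Complex.normSq_eq_norm_sq]
  rw [e1]
  have h1 : (φ / Nc).re ≤ (1 + ε) / X := by
    refine (Complex.re_le_norm _).trans ?_
    rw [norm_div]
    gcongr
  have h2 : (1 + ε) / X - x / X ^ 2 = ε / X + (X - x) / X ^ 2 := by
    field_simp; ring
  have h3 : ε / X ≤ 2 * ε / N := by
    rw [div_le_div_iff₀ hXp hN0]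
    nlinarith
  have h4 : (X - x) * N ≤ d.im ^ 2 := by
    have : (X - x) * (X + x) = d.im ^ 2 := by
      have : (X - x) * (X + x) = X ^ 2 - x ^ 2 := by ring
      rw [this, hX2]; ring
    have h5 : x ≤ X := by
      rw [← hre]; exact Complex.re_le_norm _
    nlinarith
  have h6 : d.im ^ 2 ≤ 4096 * n ^ 4 := by
    have : d.im ^ 2 = |d.im| ^ 2 := (sq_abs _).symm
    rw [this]
    calc |d.im| ^ 2 ≤ (64 * n ^ 2) ^ 2 := pow_le_pow_left₀ (abs_nonneg _) hb 2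
      _ = _ := by ring
  have h7 : (X - x) / X ^ 2 ≤ 16384 * n ^ 4 / N ^ 3 := by
    rw [div_le_div_iff₀ (by positivity) (by positivity)]
    have h8 : (X - x) * N ^ 3 ≤ 4096 * n ^ 4 * N ^ 2 := by
      have : (X - x) * N ^ 3 = ((X - x) * N) * N ^ 2 := by ring
      rw [this]
      have h9 : (X - x) * N ≤ 4096 * n ^ 4 := h4.trans h6
      gcongr
    have h10 : N ^ 2 ≤ 4 * X ^ 2 := by nlinarith
    calc (X - x) * N ^ 3 ≤ 4096 * n ^ 4 * N ^ 2 := h8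
      _ ≤ 4096 * n ^ 4 * (4 * X ^ 2) := by gcongr
      _ = _ := by ring
  linarith

theorem cos_low {x : ℝ} (h1 : 9 / 10 ≤ x) (h2 : x ≤ 2 * Real.pi + 1 / 100) :
    (2 * Real.pi - x) ^ 2 / 200 ≤ 1 - Real.cos x := by
  have hpi := Real.pi_pos
  have hpi3 := Real.pi_gt_three
  have hpi4 := Real.pi_lt_d2
  have hq : ∀ y : ℝ, |y| ≤ Real.pi → y ^ 2 / 5 ≤ 1 - Real.cos y := by
    intro y hy
    have h3 := Real.cos_le_one_sub_mul_cos_sq hy
    have h4 : 1 / 5 ≤ 2 / Real.pi ^ 2 := by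
      rw [div_le_div_iff₀ (by norm_num) (by positivity)]
      nlinarith
    nlinarith [sq_nonneg y]
  by_cases hx : x ≤ Real.pi
  · have h3 := hq x (by rw [abs_of_nonneg (by linarith)]; exact hx)
    have h4 : (2 * Real.pi - x) ^ 2 ≤ 40 * (x ^ 2) := by
      have : 2 * Real.pi - x ≤ 6 * x := by linarith
      nlinarith
    linarith
  · push Not at hx
    have h3 := hq (2 * Real.pi - x) (by rw [abs_le]; constructor <;> linarith)
    rw [Real.cos_two_pi_sub] at h3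
    nlinarith [sq_nonneg (2 * Real.pi - x)]

end Pool.Agent.Y852.ES
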