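import Pool.Agent.Y245.SC.Stm4

/-!
Project ES: Taylor estimates, the maximum point.
-/

set_option autoImplicit false

open Complex MeasureTheory Metric Set Filter Topology ComplexConjugate

namespace Pool.Agent.Y852.ES

open Pool.Agent.Y245.SC

/-- Taylor's formula with Cauchy's estimates -/
theorem tay {F : ℂ → ℂ} {z0 : ℂ} {R M : ℝ} (hR : 0 < R) (hF : DifferentiableOn ℂ F (closedBall z0 R))
    (hM : ∀ z ∈ closedBall z0 R, ‖F z‖ ≤ M) {τ : ℂ} (hτ : ‖τ‖ ≤ R / 2) (n : ℕ) :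
    ‖F (z0 + τ) - ∑ k ∈ Finset.range n, ((k.factorial : ℂ))⁻¹ * (τ ^ k * iteratedDeriv k F z0)‖ ≤
      2 * M * (‖τ‖ / R) ^ n := by
  have hM0 : 0 ≤ M := (norm_nonneg _).trans (hM z0 (mem_closedBall_self hR.le))
  have hz : z0 + τ ∈ ball z0 R := by
    rw [mem_ball_iff_norm, add_sub_cancel_left]; linarith
  have hs := Complex.hasSum_taylorSeries_on_ball (hF.mono ball_subset_closedBall) hz
  rw [add_sub_cancel_left] at hs
  have hdc : DiffContOnCl ℂ F (ball z0 R) := by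
    refine ⟨hF.mono ball_subset_closedBall, ?_⟩
    rw [closure_ball z0 hR.ne']
    exact hF.continuousOn
  have hb : ∀ k : ℕ, ‖((k.factorial : ℂ))⁻¹ • τ ^ k • iteratedDeriv k F z0‖ ≤ M * (‖τ‖ / R) ^ k := by
    intro k
    have h1 := norm_iteratedDeriv_le_of_forall_mem_sphere_norm_le k hR hdc
      (fun z hz => hM z (sphere_subset_closedBall hz))
    rw [norm_smul, norm_smul, norm_inv, norm_pow, Complex.norm_natCast]
    have h2 : (0:ℝ) < k.factorial := by exact_mod_cast k.factorial_pos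
    calc ((k.factorial : ℝ))⁻¹ * (‖τ‖ ^ k * ‖iteratedDeriv k F z0‖)
        ≤ ((k.factorial : ℝ))⁻¹ * (‖τ‖ ^ k * (k.factorial * M / R ^ k)) := by gcongr
      _ = M * (‖τ‖ / R) ^ k := by
          rw [div_pow]; field_simp
  set q := ‖τ‖ / R with hq
  have hq0 : 0 ≤ q := by positivity
  have hq1 : q ≤ 1 / 2 := by rw [hq, div_le_iff₀ hR]; linarith
  have hq2 : q < 1 := by linarith
  have hs' := (hasSum_nat_add_iff' n).2 hs
  have hgeo : HasSum (fun k : ℕ => M * q ^ (k + n)) (M * q ^ n * (1 - q)⁻¹) := by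
    have := (hasSum_geometric_of_lt_one hq0 hq2).mul_left (M * q ^ n)
    refine this.congr_fun fun k => ?_
    rw [pow_add]; ring
  have h3 : ‖F (z0 + τ) - ∑ k ∈ Finset.range n, ((k.factorial : ℂ))⁻¹ • τ ^ k • iteratedDeriv k F z0‖ ≤
      M * q ^ n * (1 - q)⁻¹ :=
    hs'.norm_le_of_bounded hgeo fun k => hb (k + n)
  have h4 : (1 - q)⁻¹ ≤ 2 := by
    rw [inv_le_comm₀ (by linarith) (by norm_num)]
    linarith
  simp only [smul_eq_mul] at h3
  refine h3.trans ?_
  have h5 : 0 ≤ M * q ^ n := by positivity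
  nlinarith

end Pool.Agent.Y852.ES
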